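import Pool.Agent.Helper30.KC.GoalsT
import Pool.Agent.Helper64.KC.GB

/-!
# Project KT, packet GB2: Gauss-Bonnet for discs, arbitrary degrees
-/

set_option autoImplicit false

namespace Pool.Agent.Helper14.KT

open scoped Classical
open Finset
open Pool.Agent.Helper94.KC Pool.Agent.Helper30.KC
open Pool.Agent.Helper64.KC (dc deg_tri bd_sub edge_count vert_count)

theorem pGB2 (hEV : StmtEV) (hDB : StmtDB) : StmtGB2 := by
  intro V _ T hT x w hw D hD
  obtain ⟨-, -, -, h4, -, -⟩ := hEV V T hT
  obtain ⟨-, hcard, hsub⟩ := h4 x w hw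
  have hlen : 3 ≤ w.length := hw.three_le_length
  have hne : (wed w).Nonempty := by
    rw [← card_pos, hcard]
    omega
  obtain ⟨-, hdb⟩ := hDB V T hT D (wed w) hD hne
  have hmem : ∀ v ∈ w.support, ∃ e ∈ wed w, v ∈ e := by
    intro v hv
    have hnil : ¬ w.Nil := hw.not_nil
    obtain ⟨u, hu⟩ : ∃ u, s(v, u) ∈ w.edges := by
      obtain ⟨e, he, hve⟩ := (SimpleGraph.Walk.mem_support_iff_exists_mem_edges_of_not_nil hnil).1 hv
      obtain ⟨u, rfl⟩ := hve
      exact ⟨u, he⟩
    refine ⟨s(v, u).toFinset, ?_, ?_⟩
    · rw [wed, List.mem_toFinset, List.mem_map]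
      exact ⟨_, hu, rfl⟩
    · rw [Sym2.mem_toFinset]
      exact Sym2.mem_mk_left v u
  have h1 : ∀ v ∈ w.support, ∃ t ∈ D, v ∈ t := by
    intro v hv
    obtain ⟨e, he, hve⟩ := hmem v hv
    rw [← hD.bdy] at he
    have h := bd_sub T D he
    rw [ed, mem_filter] at h
    obtain ⟨-, -, t, ht, het⟩ := h
    exact ⟨t, ht, het hve⟩
  refine ⟨h1, ?_⟩
  have hS : w.support.toFinset ⊆ vs D := by
    intro v hv
    rw [List.mem_toFinset] at hv
    rw [vs, mem_filter]
    exact ⟨mem_univ _, h1 v hv⟩
  have hScard : w.support.toFinset.card = w.length := by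
    have h2 : w.support.toFinset = w.support.tail.toFinset := by
      ext v
      rw [List.mem_toFinset, List.mem_toFinset]
      constructor
      · intro hv
        rw [SimpleGraph.Walk.mem_support_iff] at hv
        rcases hv with rfl | hv
        · exact SimpleGraph.Walk.end_mem_tail_support hw.not_nil
        · exact hv
      · intro hv
        exact List.mem_of_mem_tail hv
    rw [h2, List.toFinset_card_of_nodup hw.support_nodup, List.length_tail,
      SimpleGraph.Walk.length_support]
    omega
  have hint : ∀ v ∈ vs D \ w.support.toFinset,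
      (D.filter (fun t => v ∈ t)).card = dg T v := by
    intro v hv
    rw [mem_sdiff, vs, mem_filter, List.mem_toFinset] at hv
    obtain ⟨⟨-, t, ht, hvt⟩, hv2⟩ := hv
    have hz : ∀ e ∈ wed w, v ∉ e := by
      intro e he hve
      rw [wed, List.mem_toFinset, List.mem_map] at he
      obtain ⟨s, hs, rfl⟩ := he
      rw [Sym2.mem_toFinset] at hve
      obtain ⟨u, rfl⟩ := hve
      exact hv2 (w.fst_mem_support_of_mem_edges hs)
    have h2 : T.filter (fun t => v ∈ t) = D.filter (fun t => v ∈ t) := by
      ext t'
      rw [mem_filter, mem_filter]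
      constructor
      · intro ht'
        exact ⟨hdb v hz t (hD.sub ht) t' ht'.1 hvt ht'.2 ht, ht'.2⟩
      · intro ht'
        exact ⟨hD.sub ht'.1, ht'.2⟩
    rw [← deg_tri T hT v, h2]
  have hec := edge_count T D hT hD.sub
  rw [hD.bdy, hcard] at hec
  have hvc := vert_count T D hT hD.sub
  have heu := hD.euler
  rw [← sum_sdiff hS] at hvc
  have hfil : (vs D).filter (fun v => v ∉ w.support) = vs D \ w.support.toFinset := by
    ext v
    rw [mem_filter, mem_sdiff, List.mem_toFinset]
  have hsum : ∑ v ∈ (vs D).filter (fun v => v ∉ w.support), ((6 : ℤ) - dg T v) =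
      6 * ((vs D \ w.support.toFinset).card : ℤ) -
        ((∑ v ∈ vs D \ w.support.toFinset, (D.filter (fun t => v ∈ t)).card : ℕ) : ℤ) := by
    rw [hfil, sum_sub_distrib, sum_const, nsmul_eq_mul, mul_comm, Nat.cast_sum]
    congr 1
    apply sum_congr rfl
    intro v hv
    rw [hint v hv]
  have hcs : (vs D \ w.support.toFinset).card + w.support.toFinset.card = (vs D).card :=
    card_sdiff_add_card_eq_card hS
  rw [hsum, sum_sub_distrib, sum_const, nsmul_eq_mul, ← Nat.cast_sum]
  generalize (vs D \ w.support.toFinset).card = ni at *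
  generalize ∑ v ∈ vs D \ w.support.toFinset, (D.filter (fun t => v ∈ t)).card = A at *
  generalize ∑ v ∈ w.support.toFinset, (D.filter (fun t => v ∈ t)).card = B at *
  generalize w.support.toFinset.card = s at *
  generalize (vs D).card = vv at *
  generalize (ed D).card = ee at *
  generalize D.card = dd at *
  generalize w.length = ll at *
  omega

end Pool.Agent.Helper14.KT
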